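import Mathlib

/-!
# Six elements of order five: the algebra

`MP_e73b0e_al`. Let `S` be an algebra over a field `K` of characteristic not `5` which contains a primitive fifth
root of unity `ζ`. Suppose that `y` and the five elements `x y^j` of `S` satisfy `1 + g + g² + g³ + g⁴ = 0`. Then
`S = 0`. This file: the eigenprojections `e c` of `y`, the relations between the blocks `e c * x * e d` and
`e c * x⁻¹ * e d`, and the computation.
-/

set_option autoImplicit false

namespace Pool.Agent.FixFive

/-- The computation with the blocks: `A B a b c d C D P Q P' Q'` are blocks of `x` and `x⁻¹`, `p` is the unit of the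
corner. -/
theorem core {S : Type*} [Ring S] (h5 : ∀ s : S, 5 * s = 0 → s = 0)
    (p A B a b c d C D P Q P' Q' j j' : S)
    (hpp : p * p = p) (hpB : p * B = B)
    (h2 : A = -(P' * Q')) (h2' : B = -(P * Q)) (h3 : P = -(B * P')) (h3' : P' = -(A * P))
    (h4 : p + 2 * (j * j') = 0) (h5' : A * B + a * d + P * Q' - j * j' = p)
    (h6 : a = -(b * D)) (h6' : b = -(a * C)) (h6'' : c = -(D * d))
    (h7 : C = -(d * b)) (h8 : B * a = -(b * C)) (h8' : c * B = -(C * d))
    (h9 : a * c + B * B = 0) (h9' : A * a + B * b = 0) : p = 0 := by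
  -- `P Q' = B A`
  have hPQ : P * Q' = B * A := by
    calc P * Q' = -(B * P') * Q' := by rw [← h3]
      _ = B * -(P' * Q') := by simp only [neg_mul, mul_neg, mul_assoc]
      _ = B * A := by rw [← h2]
  -- `Z = a d = b c`
  have hZ : a * d = b * c := by
    calc a * d = -(b * D) * d := by rw [← h6]
      _ = b * -(D * d) := by simp only [neg_mul, mul_neg, mul_assoc]
      _ = b * c := by rw [← h6'']
  have hZZ : a * d * (a * d) = a * d := by
    calc a * d * (a * d) = a * d * (b * c) := by rw [← hZ]
      _ = -(a * -(d * b)) * c := by simp only [mul_neg, mul_assoc, neg_neg]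
      _ = -(a * C) * c := by rw [← h7]
      _ = b * c := by rw [← h6']
      _ = a * d := hZ.symm
  -- `A B² = B Z`
  have h1 : B * B = -(a * c) := by rw [← add_eq_zero_iff_eq_neg, add_comm]; exact h9
  have h1' : A * a = -(B * b) := by rw [← add_eq_zero_iff_eq_neg]; exact h9'
  have hABB : A * B * B = B * (a * d) := by
    calc A * B * B = A * (B * B) := by rw [mul_assoc]
      _ = -(A * a * c) := by rw [h1, mul_neg, mul_assoc]
      _ = B * (b * c) := by rw [h1', neg_mul, neg_neg, mul_assoc]
      _ = B * (a * d) := by rw [hZ]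
  -- `B Z = Z B`
  have hBZ : B * (a * d) = a * d * B := by
    calc B * (a * d) = B * a * d := by rw [mul_assoc]
      _ = b * -(C * d) := by rw [h8, neg_mul, mul_neg, mul_assoc]
      _ = b * (c * B) := by rw [h8']
      _ = b * c * B := by rw [mul_assoc]
      _ = a * d * B := by rw [hZ]
  -- `B A B = B`
  have hP : B * A * P = P := by
    calc B * A * P = -(B * -(A * P)) := by simp only [mul_neg, neg_neg, mul_assoc]
      _ = -(B * P') := by rw [← h3']
      _ = P := h3.symm
  have hBAB : B * A * B = B := by
    calc B * A * B = B * A * -(P * Q) := by rw [← h2']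
      _ = -(B * A * P * Q) := by simp only [mul_neg, mul_assoc]
      _ = -(P * Q) := by rw [hP]
      _ = B := h2'.symm
  -- `2 (A B + Z + B A) = p`
  have hjj : 2 * (j * j') = -p := by rw [← add_eq_zero_iff_eq_neg, add_comm]; exact h4
  have hH : 2 * (A * B) + 2 * (a * d) + 2 * (B * A) = p := by
    calc 2 * (A * B) + 2 * (a * d) + 2 * (B * A)
        = 2 * (A * B + a * d + B * A - j * j') + 2 * (j * j') := by
          simp only [mul_add, mul_sub]; abel
      _ = 2 * (A * B + a * d + P * Q' - j * j') + 2 * (j * j') := by rw [hPQ]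
      _ = 2 * p + -p := by rw [h5', hjj]
      _ = p := by rw [two_mul]; abel
  -- `4 A B² = - B`
  have h4B : 4 * (A * B * B) = -B := by
    have e1 : (2 * (A * B) + 2 * (a * d) + 2 * (B * A)) * B = B := by rw [hH, hpB]
    have e2 : (2 * (A * B) + 2 * (a * d) + 2 * (B * A)) * B
        = 2 * (A * B * B) + 2 * (a * d * B) + 2 * (B * A * B) := by
      simp only [add_mul, mul_assoc]
    rw [e2, ← hBZ, ← hABB, hBAB] at e1
    have e3 : 4 * (A * B * B) = 2 * (A * B * B) + 2 * (A * B * B) + 2 * B - B - B := by
      rw [show (4 : S) = 2 + 2 by norm_num, add_mul, two_mul B]; abel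
    rw [e3, e1]; abel
  have hABB0 : A * B * B = 0 := by
    apply h5
    have e1 : A * B * (4 * (A * B * B)) = 4 * (A * B * B) := by
      calc A * B * (4 * (A * B * B)) = 4 * (A * (B * A * B) * B) := by
            rw [show (4 : S) = ((4 : ℕ) : S) by norm_num, ← mul_assoc (A * B),
              ← Nat.cast_comm]
            simp only [mul_assoc]
        _ = 4 * (A * B * B) := by rw [hBAB]
    rw [h4B, mul_neg] at e1
    have e3 : (5 : S) * (A * B * B) = 4 * (A * B * B) + A * B * B := by
      rw [show (5 : S) = 4 + 1 by norm_num, add_mul, one_mul]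
    rw [e3, h4B, ← e1]; abel
  have hB0 : B = 0 := by
    have : -B = 0 := by rw [← h4B, hABB0]; simp
    simpa using this
  rw [hB0] at hH
  have h2Z : 2 * (a * d) = p := by
    rw [← hH]; simp
  have hc : (2 : S) * (a * d) = a * d * 2 := by
    have := Nat.cast_comm 2 (a * d)
    simpa using this
  have h4Z : 4 * (a * d) = p := by
    calc 4 * (a * d) = 4 * (a * d * (a * d)) := by rw [hZZ]
      _ = 2 * (2 * (a * d)) * (a * d) := by
        rw [show (4 : S) = 2 * 2 by norm_num]; simp only [mul_assoc]
      _ = 2 * (a * d * 2) * (a * d) := by rw [hc]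
      _ = 2 * (a * d) * (2 * (a * d)) := by simp only [mul_assoc]
      _ = p := by rw [h2Z, hpp]
  have h4Z' : 4 * (a * d) = p + p := by
    rw [← h2Z, show (4 : S) = 2 + 2 by norm_num, add_mul]
  rw [h4Z] at h4Z'
  simpa using h4Z'

end Pool.Agent.FixFive
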