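import Pool.Agent.Lib_MP_e73b0e_five.Alg

/-!
# Six elements of order five: eigenprojections and block relations

`MP_e73b0e_al`.
-/

set_option autoImplicit false

namespace Pool.Agent.FixFive

variable {K S : Type*} [Field K] [Ring S] [Algebra K S]

/-- the additive character `a ↦ ζ ^ a` of `ZMod 5` -/
noncomputable def ch (ζ : K) (a : ZMod 5) : K := ζ ^ a.val

/-- the power `y ^ j` for `j` modulo `5` -/
def yp (y : S) (j : ZMod 5) : S := y ^ j.val

/-- the eigenprojection of `y` for the eigenvalue `ζ ^ c` -/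
noncomputable def pr (ζ : K) (y : S) (c : ZMod 5) : S :=
  (5 : K)⁻¹ • ∑ j : ZMod 5, ch ζ (-(c * j)) • yp y j

lemma pow_val_add {M : Type*} [Monoid M] (y : M) (hy : y ^ 5 = 1) (a b : ZMod 5) :
    y ^ (a + b).val = y ^ a.val * y ^ b.val := by
  rw [ZMod.val_add, ← pow_add]
  conv_rhs => rw [← Nat.div_add_mod (a.val + b.val) 5, pow_add, pow_mul, hy, one_pow, one_mul]

lemma ch_add {ζ : K} (hζ : ζ ^ 5 = 1) (a b : ZMod 5) : ch ζ (a + b) = ch ζ a * ch ζ b :=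
  pow_val_add ζ hζ a b

lemma yp_add {y : S} (hy : y ^ 5 = 1) (a b : ZMod 5) : yp y (a + b) = yp y a * yp y b :=
  pow_val_add y hy a b

@[simp] lemma ch_zero (ζ : K) : ch ζ 0 = 1 := by simp [ch]

@[simp] lemma yp_zero (y : S) : yp y 0 = 1 := by simp [yp]

lemma zcases (a : ZMod 5) : a = 0 ∨ a = 1 ∨ a = 2 ∨ a = 3 ∨ a = 4 := by
  revert a; decide

lemma sum5 {M : Type*} [AddCommMonoid M] (f : ZMod 5 → M) :
    ∑ j : ZMod 5, f j = f 0 + f 1 + f 2 + f 3 + f 4 :=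
  Fin.sum_univ_five (f := (f : Fin 5 → M))

lemma sum_ch {ζ : K} (h : 1 + ζ + ζ ^ 2 + ζ ^ 3 + ζ ^ 4 = 0) (a : ZMod 5) :
    ∑ j : ZMod 5, ch ζ (a * j) = if a = 0 then 5 else 0 := by
  rw [sum5]
  simp only [ch]
  rcases zcases a with rfl | rfl | rfl | rfl | rfl
  · rw [if_pos rfl, show ((0 : ZMod 5) * 0).val = 0 from rfl, show ((0 : ZMod 5) * 1).val = 0 from rfl,
      show ((0 : ZMod 5) * 2).val = 0 from rfl, show ((0 : ZMod 5) * 3).val = 0 from rfl,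
      show ((0 : ZMod 5) * 4).val = 0 from rfl]
    norm_num
  · rw [if_neg (by decide), show ((1 : ZMod 5) * 0).val = 0 from rfl,
      show ((1 : ZMod 5) * 1).val = 1 from rfl, show ((1 : ZMod 5) * 2).val = 2 from rfl,
      show ((1 : ZMod 5) * 3).val = 3 from rfl, show ((1 : ZMod 5) * 4).val = 4 from rfl]
    linear_combination h
  · rw [if_neg (by decide), show ((2 : ZMod 5) * 0).val = 0 from rfl,
      show ((2 : ZMod 5) * 1).val = 2 from rfl, show ((2 : ZMod 5) * 2).val = 4 from rfl,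
      show ((2 : ZMod 5) * 3).val = 1 from rfl, show ((2 : ZMod 5) * 4).val = 3 from rfl]
    linear_combination h
  · rw [if_neg (by decide), show ((3 : ZMod 5) * 0).val = 0 from rfl,
      show ((3 : ZMod 5) * 1).val = 3 from rfl, show ((3 : ZMod 5) * 2).val = 1 from rfl,
      show ((3 : ZMod 5) * 3).val = 4 from rfl, show ((3 : ZMod 5) * 4).val = 2 from rfl]
    linear_combination h
  · rw [if_neg (by decide), show ((4 : ZMod 5) * 0).val = 0 from rfl,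
      show ((4 : ZMod 5) * 1).val = 4 from rfl, show ((4 : ZMod 5) * 2).val = 3 from rfl,
      show ((4 : ZMod 5) * 3).val = 2 from rfl, show ((4 : ZMod 5) * 4).val = 1 from rfl]
    linear_combination h

/-- Fourier inversion. -/
lemma fourier {ζ : K} (h : 1 + ζ + ζ ^ 2 + ζ ^ 3 + ζ ^ 4 = 0) (hζ : ζ ^ 5 = 1) (h5 : (5 : K) ≠ 0)
    (F : ZMod 5 → S) (hF : ∀ j, ∑ m : ZMod 5, ch ζ (m * j) • F m = 0) (n : ZMod 5) : F n = 0 := by
  have h1 : ∑ j : ZMod 5, ch ζ (-(n * j)) • ∑ m : ZMod 5, ch ζ (m * j) • F m = 0 := by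
    simp [hF]
  have h2 : ∑ j : ZMod 5, ch ζ (-(n * j)) • ∑ m : ZMod 5, ch ζ (m * j) • F m
      = ∑ m : ZMod 5, (∑ j : ZMod 5, ch ζ ((m - n) * j)) • F m := by
    simp only [Finset.smul_sum, Finset.sum_smul, smul_smul, ← ch_add hζ]
    rw [Finset.sum_comm]
    refine Finset.sum_congr rfl fun m _ => Finset.sum_congr rfl fun j _ => ?_
    congr 2; ring
  rw [h2] at h1
  simp only [sum_ch h, sub_eq_zero, ite_smul, zero_smul, Finset.sum_ite_eq', Finset.mem_univ,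
    if_true] at h1
  exact (smul_eq_zero_iff_right h5).1 h1

section proj

variable {ζ : K} {y : S}

lemma yp_mul_pr (hζ : ζ ^ 5 = 1) (hy : y ^ 5 = 1) (k c : ZMod 5) :
    yp y k * pr ζ y c = ch ζ (c * k) • pr ζ y c := by
  have e1 : yp y k * pr ζ y c = (5 : K)⁻¹ • ∑ j : ZMod 5, ch ζ (-(c * j)) • yp y (k + j) := by
    simp only [pr, mul_smul_comm, Finset.mul_sum, yp_add hy]
  have e2 : ∑ j : ZMod 5, ch ζ (-(c * j)) • yp y (k + j)
      = ∑ i : ZMod 5, ch ζ (c * k) • (ch ζ (-(c * i)) • yp y i) := by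
    refine Fintype.sum_equiv (Equiv.addLeft k) _ _ fun j => ?_
    simp only [Equiv.coe_addLeft, smul_smul, ← ch_add hζ]
    congr 2; ring
  rw [e1, e2, ← Finset.smul_sum, smul_comm, pr]

lemma pr_mul_yp (hζ : ζ ^ 5 = 1) (hy : y ^ 5 = 1) (k c : ZMod 5) :
    pr ζ y c * yp y k = ch ζ (c * k) • pr ζ y c := by
  rw [← yp_mul_pr hζ hy]
  simp only [pr, mul_smul_comm, smul_mul_assoc, Finset.mul_sum, Finset.sum_mul, ← yp_add hy,
    add_comm]

lemma pr_mul_pr (h : 1 + ζ + ζ ^ 2 + ζ ^ 3 + ζ ^ 4 = 0) (hζ : ζ ^ 5 = 1) (h5 : (5 : K) ≠ 0)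
    (hy : y ^ 5 = 1) (c d : ZMod 5) :
    pr ζ y c * pr ζ y d = if c = d then pr ζ y c else 0 := by
  have h1 : pr ζ y c * pr ζ y d
      = (5 : K)⁻¹ • ((∑ j : ZMod 5, ch ζ ((c - d) * j)) • pr ζ y c) := by
    have e1 : pr ζ y c * pr ζ y d
        = (5 : K)⁻¹ • ∑ j : ZMod 5, ch ζ (-(d * j)) • (pr ζ y c * yp y j) := by
      rw [pr.eq_1 ζ y d, mul_smul_comm, Finset.mul_sum]
      simp only [mul_smul_comm]
    rw [e1, Finset.sum_smul]
    congr 1
    refine Finset.sum_congr rfl fun j _ => ?_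
    rw [pr_mul_yp hζ hy, smul_smul, ← ch_add hζ]
    congr 2; ring
  rw [h1, sum_ch h]
  by_cases hcd : c = d
  · simp [hcd, smul_smul, h5]
  · simp [hcd, sub_eq_zero]

lemma sum_pr (h : 1 + ζ + ζ ^ 2 + ζ ^ 3 + ζ ^ 4 = 0) (h5 : (5 : K) ≠ 0) (y : S) :
    ∑ c : ZMod 5, pr ζ y c = 1 := by
  simp only [pr]
  rw [← Finset.smul_sum, Finset.sum_comm]
  have h1 : ∀ j : ZMod 5, ∑ c : ZMod 5, ch ζ (-(c * j)) • yp y j
      = if j = 0 then (5 : K) • (1 : S) else 0 := by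
    intro j
    rw [← Finset.sum_smul]
    have h2 : ∑ c : ZMod 5, ch ζ (-(c * j)) = ∑ c : ZMod 5, ch ζ (-j * c) := by
      refine Finset.sum_congr rfl fun c _ => ?_
      congr 1; ring
    rw [h2, sum_ch h]
    by_cases hj : j = 0
    · simp [hj]
    · simp [hj]
  simp only [h1, Finset.sum_ite_eq', Finset.mem_univ, if_true, smul_smul, inv_mul_cancel₀ h5,
    one_smul]

lemma pr_zero (hy : 1 + y + y ^ 2 + y ^ 3 + y ^ 4 = 0) : pr ζ y 0 = 0 := by
  simp only [pr, zero_mul, neg_zero, ch_zero, one_smul]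
  rw [sum5]
  have : yp y 0 + yp y 1 + yp y 2 + yp y 3 + yp y 4 = 0 := by
    rw [← hy]
    simp only [yp, show (0 : ZMod 5).val = 0 from rfl, show (1 : ZMod 5).val = 1 from rfl,
      show (2 : ZMod 5).val = 2 from rfl, show (3 : ZMod 5).val = 3 from rfl,
      show (4 : ZMod 5).val = 4 from rfl, pow_zero, pow_one]
  rw [this, smul_zero]

lemma yp_eq_sum (h : 1 + ζ + ζ ^ 2 + ζ ^ 3 + ζ ^ 4 = 0) (hζ : ζ ^ 5 = 1) (h5 : (5 : K) ≠ 0)
    (hy : y ^ 5 = 1) (k : ZMod 5) : yp y k = ∑ c : ZMod 5, ch ζ (c * k) • pr ζ y c := by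
  rw [← mul_one (yp y k), ← sum_pr h h5 y, Finset.mul_sum]
  exact Finset.sum_congr rfl fun c _ => yp_mul_pr hζ hy k c

end proj

end Pool.Agent.FixFive
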