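import Pool.Agent.Lib_MP_e73b0e_five.Main

/-!
# Six automorphisms of order five

`MP_e73b0e_al`.
-/

set_option autoImplicit false

open TensorProduct

namespace Pool.Agent.FixFive

section

variable {G V : Type*} [Group G] [AddCommGroup V] [DistribMulAction G V]

/-- `g` has order dividing five and fixes only `0`. -/
def Reg (V : Type*) [AddCommGroup V] [DistribMulAction G V] (g : G) : Prop :=
  (∀ v : V, g • g • g • g • g • v = v) ∧ ∀ v : V, g • v = v → v = 0

lemma Reg.sum {g : G} (h : Reg V g) (v : V) :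
    v + g • v + g • g • v + g • g • g • v + g • g • g • g • v = 0 := by
  apply h.2
  simp only [smul_add, h.1]
  abel

lemma Reg.five {g : G} (h : Reg V g) (v : V) (hv : (5 : ℤ) • v = 0) : v = 0 := by
  have hinj : ∀ w : V, g • w - w = 0 → w = 0 := fun w hw => h.2 w (sub_eq_zero.1 hw)
  have hc : ∀ w : V, (5 : ℤ) • (g • w) = g • ((5 : ℤ) • w) := fun w => smul_comm _ _ _
  apply hinj; apply hinj; apply hinj; apply hinj; apply hinj
  have e1 : (5 : ℤ) • (g • v) = 0 := by rw [hc, hv, smul_zero]
  have e2 : (5 : ℤ) • (g • g • v) = 0 := by rw [hc, e1, smul_zero]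
  have e3 : (5 : ℤ) • (g • g • g • v) = 0 := by rw [hc, e2, smul_zero]
  have e4 : (5 : ℤ) • (g • g • g • g • v) = 0 := by rw [hc, e3, smul_zero]
  simp only [smul_sub, h.1]
  have : (-1 : ℤ) • ((5 : ℤ) • (g • g • g • g • v)) + (2 : ℤ) • ((5 : ℤ) • (g • g • g • v))
      - (2 : ℤ) • ((5 : ℤ) • (g • g • v)) + (5 : ℤ) • (g • v) = 0 := by
    rw [e1, e2, e3, e4]; simp
  rw [← this]
  abel

/-- torsion-free case -/
theorem torsionfree_case (x y : G) (hy : Reg V y) (hx : ∀ j : ℕ, j < 5 → Reg V (x * y ^ j))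
    (htf : ∀ (n : ℤ) (v : V), n ≠ 0 → n • v = 0 → v = 0) (v : V) : v = 0 := by
  let ρ : G →* Module.End ℤ V :=
    { toFun := fun g => (DistribMulAction.toAddMonoidEnd G V g).toIntLinearMap
      map_one' := by ext v; simp
      map_mul' := fun a b => by ext v; simp [mul_smul] }
  have hρ : ∀ g, Reg V g → Phi (ρ g) := by
    intro g hg
    refine LinearMap.ext fun v => ?_
    have := hg.sum v
    simpa [Phi, ρ, pow_succ] using this
  have hflat : Module.Flat ℤ V := by
    rw [Module.Flat.flat_iff_torsion_eq_bot_of_isBezout]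
    rw [eq_bot_iff]
    rintro v ⟨⟨n, hn⟩, h⟩
    exact htf n v (nonZeroDivisors.ne_zero hn) h
  have h5 : (5 : AlgebraicClosure ℚ) ≠ 0 := by norm_num
  have hs : Subsingleton (AlgebraicClosure ℚ ⊗[ℤ] V) :=
    tensor_trivial h5 ρ x y (hρ y hy) fun j hj => hρ _ (hx j hj)
  have hinj : Function.Injective ((Algebra.linearMap ℤ (AlgebraicClosure ℚ)).rTensor V) := by
    apply Module.Flat.rTensor_preserves_injective_linearMap
    intro a b hab
    simpa using hab
  have h1 : (1 : ℤ) ⊗ₜ[ℤ] v = 0 := hinj (Subsingleton.elim _ _)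
  have h2 := congrArg (TensorProduct.lid ℤ V) h1
  simpa using h2

/-- the case of an elementary abelian group -/
theorem torsion_case (q : ℕ) [hq : Fact q.Prime] (hq5 : q ≠ 5) [Module (ZMod q) V] (x y : G)
    (hy : Reg V y) (hx : ∀ j : ℕ, j < 5 → Reg V (x * y ^ j)) (v : V) : v = 0 := by
  let ρ : G →* Module.End (ZMod q) V :=
    { toFun := fun g => (DistribMulAction.toAddMonoidEnd G V g).toZModLinearMap q
      map_one' := by ext v; simp
      map_mul' := fun a b => by ext v; simp [mul_smul] }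
  have hρ : ∀ g, Reg V g → Phi (ρ g) := by
    intro g hg
    refine LinearMap.ext fun v => ?_
    have := hg.sum v
    simpa [Phi, ρ, pow_succ] using this
  have h5 : (5 : AlgebraicClosure (ZMod q)) ≠ 0 := by
    intro h
    have h1 : ((5 : ℕ) : AlgebraicClosure (ZMod q)) = 0 := by exact_mod_cast h
    rw [CharP.cast_eq_zero_iff (AlgebraicClosure (ZMod q)) q] at h1
    exact hq5 ((Nat.prime_dvd_prime_iff_eq hq.out (by norm_num)).1 h1)
  have hs : Subsingleton (AlgebraicClosure (ZMod q) ⊗[ZMod q] V) :=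
    tensor_trivial h5 ρ x y (hρ y hy) fun j hj => hρ _ (hx j hj)
  rw [Module.FaithfullyFlat.subsingleton_tensorProduct_iff_right] at hs
  exact Subsingleton.elim _ _

/-- the elements killed by `q` -/
def kill (V : Type*) [AddCommGroup V] (q : ℕ) : AddSubgroup V where
  carrier := {v | q • v = 0}
  zero_mem' := by simp
  add_mem' {a b} ha hb := by
    simp only [Set.mem_ofPred_eq] at *
    rw [smul_add, ha, hb, add_zero]
  neg_mem' {a} ha := by
    simp only [Set.mem_ofPred_eq] at *
    rw [smul_neg, ha, neg_zero]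

lemma mem_kill {q : ℕ} {v : V} : v ∈ kill V q ↔ q • v = 0 := Iff.rfl

instance killAct (q : ℕ) : DistribMulAction G (kill V q) where
  smul g v := ⟨g • (v : V), by rw [mem_kill, smul_comm, mem_kill.1 v.2, smul_zero]⟩
  one_smul v := Subtype.ext (one_smul G (v : V))
  mul_smul a b v := Subtype.ext (mul_smul a b (v : V))
  smul_zero g := Subtype.ext (smul_zero g)
  smul_add g a b := Subtype.ext (smul_add g (a : V) (b : V))

lemma coe_kill_smul {q : ℕ} (g : G) (v : kill V q) : ((g • v : kill V q) : V) = g • (v : V) := rfl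

lemma Reg.kill {g : G} (h : Reg V g) (q : ℕ) : Reg (kill V q) g :=
  ⟨fun v => Subtype.ext (h.1 v), fun v hv => Subtype.ext (h.2 v (congrArg Subtype.val hv))⟩

/-- Two elements `x`, `y` such that `y` and `x y ^ j` have order five and fix only `0` do not exist on a non-zero
abelian group. -/
theorem vanish (x y : G) (hy : Reg V y) (hx : ∀ j : ℕ, j < 5 → Reg V (x * y ^ j)) (v : V) :
    v = 0 := by
  by_cases htor : ∃ q : ℕ, q.Prime ∧ ∃ w : V, w ≠ 0 ∧ q • w = 0
  · obtain ⟨q, hq, w, hw, hqw⟩ := htor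
    exfalso
    have hq5 : q ≠ 5 := by
      rintro rfl
      exact hw (hy.five w (by exact_mod_cast hqw))
    have : Fact q.Prime := ⟨hq⟩
    let _ : Module (ZMod q) (kill V q) :=
      AddCommGroup.zmodModule (n := q) fun v => Subtype.ext (mem_kill.1 v.2)
    have := torsion_case (V := kill V q) q hq5 x y (hy.kill q) (fun j hj => (hx j hj).kill q)
      ⟨w, hqw⟩
    exact hw (congrArg Subtype.val this)
  · push Not at htor
    refine torsionfree_case x y hy hx (fun n w hn hnw => ?_) v
    by_contra hw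
    have h1 : n.natAbs • w = 0 := by
      rcases Int.natAbs_eq n with h | h
      · rw [h] at hnw; simpa using hnw
      · rw [h] at hnw; simpa using hnw
    have h2 : addOrderOf w ≠ 0 := by
      rw [Ne, addOrderOf_eq_zero_iff, isOfFinAddOrder_iff_nsmul_eq_zero]
      push Not
      exact ⟨n.natAbs, Int.natAbs_pos.2 hn, h1⟩
    have h3 : addOrderOf w ≠ 1 := by rwa [Ne, AddMonoid.addOrderOf_eq_one_iff]
    have hp := Nat.minFac_prime h3
    obtain ⟨m, hm⟩ := Nat.minFac_dvd (addOrderOf w)
    have hm0 : m ≠ 0 := by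
      rintro rfl; exact h2 (by rw [hm]; simp)
    refine htor _ hp (m • w) ?_ ?_
    · intro h
      have h4 := Nat.le_of_dvd (Nat.pos_of_ne_zero hm0) (addOrderOf_dvd_of_nsmul_eq_zero h)
      have h5 : 2 * m ≤ addOrderOf w := by
        conv_rhs => rw [hm]
        exact Nat.mul_le_mul_right m hp.two_le
      omega
    · rw [← mul_smul, ← hm, addOrderOf_nsmul_eq_zero]

end

end Pool.Agent.FixFive
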