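import Pool.Agent.Lib_MP_e73b0e_five.Rel

/-!
# Six elements of order five: abelian groups

`MP_e73b0e_al`.
-/

set_option autoImplicit false

open TensorProduct

namespace Pool.Agent.FixFive

section ring

variable {K S : Type*} [Field K] [Ring S] [Algebra K S]

lemma ch_pow (ζ : K) (hζ : ζ ^ 5 = 1) (c a : ZMod 5) : ch (ζ ^ c.val) a = ch ζ (c * a) := by
  simp only [ch]
  rw [← pow_mul, ZMod.val_mul]
  conv_lhs => rw [← Nat.div_add_mod (c.val * a.val) 5, pow_add, pow_mul, hζ, one_pow, one_mul]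

lemma pr_pow (ζ : K) (hζ : ζ ^ 5 = 1) (y : S) (c : ZMod 5) :
    pr (ζ ^ c.val) y 1 = pr ζ y c := by
  simp only [pr, ch_pow ζ hζ, one_mul, mul_neg]

lemma zeta_pow {ζ : K} (h : 1 + ζ + ζ ^ 2 + ζ ^ 3 + ζ ^ 4 = 0) {c : ZMod 5} (hc : c ≠ 0) :
    1 + ζ ^ c.val + (ζ ^ c.val) ^ 2 + (ζ ^ c.val) ^ 3 + (ζ ^ c.val) ^ 4 = 0 := by
  have h1 := sum_ch h c
  rw [if_neg hc, sum5] at h1
  simp only [← ch_pow ζ (pow_five h) c] at h1
  simpa [ch, show (0 : ZMod 5).val = 0 from rfl, show (1 : ZMod 5).val = 1 from rfl,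
      show (2 : ZMod 5).val = 2 from rfl, show (3 : ZMod 5).val = 3 from rfl,
      show (4 : ZMod 5).val = 4 from rfl] using h1

theorem Six.trivial {ζ : K} {x x' y : S} (H : Six ζ x x' y) : (1 : S) = 0 := by
  rw [← sum_pr H.zeta H.five y]
  refine Finset.sum_eq_zero fun c _ => ?_
  by_cases hc : c = 0
  · rw [hc]; exact H.pr0
  · rw [← pr_pow ζ H.z5 y c]
    exact Six.pr_one (x := x) (x' := x') ⟨zeta_pow H.zeta hc, H.five, H.mul_inv, H.inv_mul, H.hy, H.hg⟩

end ring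

/-- The relation `1 + g + g² + g³ + g⁴ = 0`. -/
def Phi {R : Type*} [Semiring R] (g : R) : Prop := 1 + g + g ^ 2 + g ^ 3 + g ^ 4 = 0

lemma Phi.map {R R' : Type*} [Semiring R] [Semiring R'] (f : R →+* R') {g : R} (h : Phi g) : Phi (f g) := by
  have := congrArg f h
  simpa [Phi] using this

theorem tensor_trivial {G R M K : Type*} [Group G] [CommRing R] [AddCommGroup M] [Module R M]
    [Field K] [IsAlgClosed K] [Algebra R K] (h5 : (5 : K) ≠ 0) (ρ : G →* Module.End R M) (x y : G)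
    (hy : Phi (ρ y)) (hx : ∀ j : ℕ, j < 5 → Phi (ρ (x * y ^ j))) :
    Subsingleton (K ⊗[R] M) := by
  classical
  obtain ⟨ζ, hζ⟩ : ∃ ζ : K, 1 + ζ + ζ ^ 2 + ζ ^ 3 + ζ ^ 4 = 0 := by
    obtain ⟨ζ, hζ⟩ := IsAlgClosed.exists_root
      (1 + Polynomial.X + Polynomial.X ^ 2 + Polynomial.X ^ 3 + Polynomial.X ^ 4 : Polynomial K)
      (by
        have : (1 + Polynomial.X + Polynomial.X ^ 2 + Polynomial.X ^ 3 + Polynomial.X ^ 4
          : Polynomial K).degree = 4 := by compute_degree!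
        rw [this]; decide)
    exact ⟨ζ, by simpa [Polynomial.IsRoot] using hζ⟩
  let F : Module.End R M →+* Module.End K (K ⊗[R] M) :=
    (Module.End.baseChangeHom R K M).toRingHom
  have H : Six ζ (F (ρ x)) (F (ρ x⁻¹)) (F (ρ y)) := by
    refine ⟨hζ, h5, ?_, ?_, hy.map F, fun j => ?_⟩
    · rw [← map_mul, ← map_mul, mul_inv_cancel, map_one, map_one]
    · rw [← map_mul, ← map_mul, inv_mul_cancel, map_one, map_one]
    · have h := (hx j.val (ZMod.val_lt j)).map F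
      rw [map_mul, map_pow, map_mul, map_pow] at h
      exact h
  have h1 := H.trivial
  refine ⟨fun a b => ?_⟩
  have h2 : ∀ a : K ⊗[R] M, a = 0 := fun a => by
    have := congrArg (fun f : Module.End K (K ⊗[R] M) => f a) h1
    simpa using this
  rw [h2 a, h2 b]

end Pool.Agent.FixFive
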