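import Pool.Agent.Lib_MP_e73b0e_five.Blk

/-!
# Six elements of order five: the relations and the conclusion

`MP_e73b0e_al`.
-/

set_option autoImplicit false

namespace Pool.Agent.FixFive

lemma pow_five {R : Type*} [Ring R] {y : R} (hy : 1 + y + y ^ 2 + y ^ 3 + y ^ 4 = 0) :
    y ^ 5 = 1 := by
  have h1 : (y - 1) * (1 + y + y ^ 2 + y ^ 3 + y ^ 4) = y ^ 5 - 1 := by
    noncomm_ring
  rw [hy, mul_zero] at h1
  exact (sub_eq_zero.1 h1.symm)

variable {K S : Type*} [Field K] [Ring S] [Algebra K S]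

set_option linter.unusedSectionVars false

/-- The six elements `y`, `x y ^ j` satisfy `1 + g + g² + g³ + g⁴ = 0`; `x'` is the inverse of `x`. -/
structure Six (ζ : K) (x x' y : S) : Prop where
  zeta : 1 + ζ + ζ ^ 2 + ζ ^ 3 + ζ ^ 4 = 0
  five : (5 : K) ≠ 0
  mul_inv : x * x' = 1
  inv_mul : x' * x = 1
  hy : 1 + y + y ^ 2 + y ^ 3 + y ^ 4 = 0
  hg : ∀ j : ZMod 5, 1 + x * yp y j + (x * yp y j) ^ 2 + (x * yp y j) ^ 3 + (x * yp y j) ^ 4 = 0

namespace Six

variable {ζ : K} {x x' y : S} (H : Six ζ x x' y)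

include H

lemma z5 : ζ ^ 5 = 1 := pow_five H.zeta

lemma y5 : y ^ 5 = 1 := pow_five H.hy

lemma symm (j : ZMod 5) : 1 + x * yp y j + x * yp y j * (x * yp y j) + yp y (-j) * x'
    + yp y (-j) * x' * (yp y (-j) * x') = 0 := by
  have hyy : yp y (-j) * yp y j = 1 := by rw [← yp_add H.y5]; simp
  set g := x * yp y j with hgdef
  set g' := yp y (-j) * x' with hg'def
  have hg'g : g' * g = 1 := by
    rw [hgdef, hg'def]
    calc yp y (-j) * x' * (x * yp y j) = yp y (-j) * (x' * x) * yp y j := by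
          simp only [mul_assoc]
      _ = 1 := by rw [H.inv_mul, mul_one, hyy]
  have h := H.hg j
  rw [← hgdef] at h
  have h1 : g' * g' * (1 + g + g ^ 2 + g ^ 3 + g ^ 4) = 0 := by rw [h, mul_zero]
  have e1 : g' * g' * g = g' := by rw [mul_assoc, hg'g, mul_one]
  have e2 : g' * g' * g ^ 2 = 1 := by rw [pow_two, ← mul_assoc, e1, hg'g]
  have e3 : g' * g' * g ^ 3 = g := by rw [pow_succ, ← mul_assoc, e2, one_mul]
  have e4 : g' * g' * g ^ 4 = g * g := by rw [pow_succ, ← mul_assoc, e3]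
  rw [mul_add, mul_add, mul_add, mul_add, e1, e2, e3, e4, mul_one] at h1
  rw [← h1]; abel

/-- The block relations. -/
lemma rel (c d n : ZMod 5) :
    (if n = 0 then pr ζ y c * pr ζ y d else 0) + (if n = d then pr ζ y c * x * pr ζ y d else 0)
      + (if n = -c then pr ζ y c * x' * pr ζ y d else 0)
      + pr ζ y c * x * pr ζ y (n - d) * x * pr ζ y d
      + pr ζ y c * x' * pr ζ y (-n - c) * x' * pr ζ y d = 0 := by
  refine fourier H.zeta H.z5 H.five (fun n : ZMod 5 =>
    (if n = 0 then pr ζ y c * pr ζ y d else 0) + (if n = d then pr ζ y c * x * pr ζ y d else 0)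
      + (if n = -c then pr ζ y c * x' * pr ζ y d else 0)
      + pr ζ y c * x * pr ζ y (n - d) * x * pr ζ y d
      + pr ζ y c * x' * pr ζ y (-n - c) * x' * pr ζ y d) (fun j => ?_) n
  have hz := H.z5
  have hy := H.y5
  -- the four terms
  have t1 : pr ζ y c * (x * yp y j) * pr ζ y d = ch ζ (d * j) • (pr ζ y c * x * pr ζ y d) := by
    calc pr ζ y c * (x * yp y j) * pr ζ y d = pr ζ y c * x * (yp y j * pr ζ y d) := by
          simp only [mul_assoc]
      _ = ch ζ (d * j) • (pr ζ y c * x * pr ζ y d) := by rw [yp_mul_pr hz hy, mul_smul_comm]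
  have t2 : pr ζ y c * (x * yp y j * (x * yp y j)) * pr ζ y d
      = ∑ m : ZMod 5, ch ζ (m * j) • (pr ζ y c * x * pr ζ y (m - d) * x * pr ζ y d) := by
    have e1 : pr ζ y c * (x * yp y j * (x * yp y j)) * pr ζ y d
        = ch ζ (d * j) • (pr ζ y c * x * yp y j * x * pr ζ y d) := by
      calc pr ζ y c * (x * yp y j * (x * yp y j)) * pr ζ y d
          = pr ζ y c * x * yp y j * x * (yp y j * pr ζ y d) := by simp only [mul_assoc]
        _ = ch ζ (d * j) • (pr ζ y c * x * yp y j * x * pr ζ y d) := by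
          rw [yp_mul_pr hz hy, mul_smul_comm]
    have e2 : pr ζ y c * x * yp y j * x * pr ζ y d
        = ∑ k : ZMod 5, ch ζ (k * j) • (pr ζ y c * x * pr ζ y k * x * pr ζ y d) := by
      rw [yp_eq_sum H.zeta hz H.five hy j]
      simp only [Finset.mul_sum, Finset.sum_mul, mul_smul_comm, smul_mul_assoc]
    rw [e1, e2, Finset.smul_sum]
    refine Fintype.sum_equiv (Equiv.addRight d) _ _ fun k => ?_
    simp only [Equiv.coe_addRight, smul_smul, ← ch_add hz, add_sub_cancel_right]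
    congr 2; ring
  have t3 : pr ζ y c * (yp y (-j) * x') * pr ζ y d
      = ch ζ (-c * j) • (pr ζ y c * x' * pr ζ y d) := by
    calc pr ζ y c * (yp y (-j) * x') * pr ζ y d = pr ζ y c * yp y (-j) * x' * pr ζ y d := by
          simp only [mul_assoc]
      _ = ch ζ (-c * j) • (pr ζ y c * x' * pr ζ y d) := by
        rw [pr_mul_yp hz hy, smul_mul_assoc, smul_mul_assoc]
        congr 2; ring
  have t4 : pr ζ y c * (yp y (-j) * x' * (yp y (-j) * x')) * pr ζ y d
      = ∑ m : ZMod 5, ch ζ (m * j) • (pr ζ y c * x' * pr ζ y (-m - c) * x' * pr ζ y d) := by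
    have e1 : pr ζ y c * (yp y (-j) * x' * (yp y (-j) * x')) * pr ζ y d
        = ch ζ (-c * j) • (pr ζ y c * x' * yp y (-j) * x' * pr ζ y d) := by
      calc pr ζ y c * (yp y (-j) * x' * (yp y (-j) * x')) * pr ζ y d
          = pr ζ y c * yp y (-j) * x' * yp y (-j) * x' * pr ζ y d := by simp only [mul_assoc]
        _ = ch ζ (-c * j) • (pr ζ y c * x' * yp y (-j) * x' * pr ζ y d) := by
          rw [pr_mul_yp hz hy]
          simp only [smul_mul_assoc]
          congr 2; ring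
    have e2 : pr ζ y c * x' * yp y (-j) * x' * pr ζ y d
        = ∑ k : ZMod 5, ch ζ (k * -j) • (pr ζ y c * x' * pr ζ y k * x' * pr ζ y d) := by
      rw [yp_eq_sum H.zeta hz H.five hy (-j)]
      simp only [Finset.mul_sum, Finset.sum_mul, mul_smul_comm, smul_mul_assoc]
    rw [e1, e2, Finset.smul_sum]
    refine Fintype.sum_equiv ((Equiv.addRight c).trans (Equiv.neg _)) _ _ fun k => ?_
    simp only [Equiv.trans_apply, Equiv.coe_addRight, Equiv.neg_apply, smul_smul, ← ch_add hz,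
      neg_neg, add_sub_cancel_right]
    congr 2; ring
  have hs := congrArg (fun z => pr ζ y c * z * pr ζ y d) (H.symm j)
  simp only [mul_add, add_mul, mul_zero, zero_mul, mul_one] at hs
  rw [t1, t2, t3, t4] at hs
  simp only [smul_add, Finset.sum_add_distrib, smul_ite, smul_zero, Finset.sum_ite_eq',
    Finset.mem_univ, if_true, zero_mul, ch_zero, one_smul]
  rw [← hs]; abel

lemma pr0 : pr ζ y 0 = 0 := pr_zero H.hy

lemma pr_self (c : ZMod 5) : pr ζ y c * pr ζ y c = pr ζ y c := by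
  rw [pr_mul_pr H.zeta H.z5 H.five H.y5, if_pos rfl]

lemma pr_ne {c d : ZMod 5} (h : c ≠ d) : pr ζ y c * pr ζ y d = 0 := by
  rw [pr_mul_pr H.zeta H.z5 H.five H.y5, if_neg h]

lemma split (u v : S) (c k d : ZMod 5) : pr ζ y c * u * pr ζ y k * v * pr ζ y d
    = pr ζ y c * u * pr ζ y k * (pr ζ y k * v * pr ζ y d) := by
  calc pr ζ y c * u * pr ζ y k * v * pr ζ y d
      = pr ζ y c * u * (pr ζ y k * pr ζ y k) * v * pr ζ y d := by rw [H.pr_self]
    _ = pr ζ y c * u * pr ζ y k * (pr ζ y k * v * pr ζ y d) := by simp only [mul_assoc]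

lemma A1 (c d k : ZMod 5) (h1 : d ≠ 0) (h2 : d ≠ -c) (hk : -d - c = k) :
    pr ζ y c * x * pr ζ y d
      = -(pr ζ y c * x' * pr ζ y k * (pr ζ y k * x' * pr ζ y d)) := by
  have h := H.rel c d d
  rw [if_neg h1, if_pos rfl, if_neg h2, sub_self, H.pr0, hk, H.split x' x'] at h
  simp only [mul_zero, zero_mul, zero_add, add_zero] at h
  exact eq_neg_of_add_eq_zero_left h

lemma A2 (c d k : ZMod 5) (h1 : -c ≠ 0) (h2 : -c ≠ d) (hk : -c - d = k) :
    pr ζ y c * x' * pr ζ y d
      = -(pr ζ y c * x * pr ζ y k * (pr ζ y k * x * pr ζ y d)) := by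
  have h := H.rel c d (-c)
  rw [if_neg h1, if_neg h2, if_pos rfl, neg_neg, sub_self, H.pr0, hk, H.split x x] at h
  simp only [mul_zero, zero_mul, zero_add, add_zero] at h
  exact eq_neg_of_add_eq_zero_left h

lemma A3 (c d : ZMod 5) (h1 : d ≠ 0) (h2 : d = -c) :
    pr ζ y c * x' * pr ζ y d = -(pr ζ y c * x * pr ζ y d) := by
  have h := H.rel c d d
  rw [if_neg h1, if_pos rfl, if_pos h2, sub_self, H.pr0,
    show -d - c = 0 by rw [h2]; ring, H.pr0] at h
  simp only [mul_zero, zero_mul, zero_add, add_zero] at h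
  rw [add_comm] at h
  exact eq_neg_of_add_eq_zero_left h

lemma A4 (c k : ZMod 5) (h1 : (0 : ZMod 5) ≠ c) (hk : -c = k) :
    pr ζ y c + pr ζ y c * x * pr ζ y k * (pr ζ y k * x * pr ζ y c)
      + pr ζ y c * x' * pr ζ y k * (pr ζ y k * x' * pr ζ y c) = 0 := by
  have h := H.rel c c 0
  rw [if_pos rfl, if_neg h1, if_neg (by rw [ne_comm] at h1; exact fun h => h1 (neg_eq_zero.1 h.symm)),
    H.pr_self, zero_sub, neg_zero, zero_sub, hk, H.split x x, H.split x' x'] at h
  simpa only [add_zero] using h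

lemma A5 (c d n k l : ZMod 5) (h0 : n ≠ 0 ∨ c ≠ d) (h1 : n ≠ d) (h2 : n ≠ -c) (hk : n - d = k)
    (hl : -n - c = l) :
    pr ζ y c * x * pr ζ y k * (pr ζ y k * x * pr ζ y d)
      + pr ζ y c * x' * pr ζ y l * (pr ζ y l * x' * pr ζ y d) = 0 := by
  have h := H.rel c d n
  have e1 : (if n = 0 then pr ζ y c * pr ζ y d else 0) = 0 := by
    split_ifs with hn
    · exact H.pr_ne (h0.resolve_left (fun h => h hn))
    · rfl
  rw [e1, if_neg h1, if_neg h2, hk, hl, H.split x x, H.split x' x'] at h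
  simpa only [zero_add] using h

lemma sum_split (u v : S) (c d : ZMod 5) :
    pr ζ y c * u * pr ζ y 1 * (pr ζ y 1 * v * pr ζ y d)
      + pr ζ y c * u * pr ζ y 2 * (pr ζ y 2 * v * pr ζ y d)
      + pr ζ y c * u * pr ζ y 3 * (pr ζ y 3 * v * pr ζ y d)
      + pr ζ y c * u * pr ζ y 4 * (pr ζ y 4 * v * pr ζ y d)
      = pr ζ y c * (u * v) * pr ζ y d := by
  simp only [← H.split]
  have h := sum_pr H.zeta H.five y
  rw [sum5, H.pr0, zero_add] at h
  calc _ = pr ζ y c * u * (pr ζ y 1 + pr ζ y 2 + pr ζ y 3 + pr ζ y 4) * v * pr ζ y d := by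
        simp only [mul_add, add_mul]
    _ = _ := by rw [h]; simp only [mul_one, mul_assoc]

theorem pr_one : pr ζ y 1 = 0 := by
  have h5 : ∀ s : S, 5 * s = 0 → s = 0 := by
    intro s hs
    have h1 : (5 : K) • s = 0 := by
      rw [Algebra.smul_def, map_ofNat]; exact hs
    exact (smul_eq_zero_iff_right H.five).1 h1
  have e14 := H.A3 1 4 (by decide) (by decide)
  have e41 := H.A3 4 1 (by decide) (by decide)
  have e23 := H.A3 2 3 (by decide) (by decide)
  have e32 := H.A3 3 2 (by decide) (by decide)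
  refine core h5 (pr ζ y 1) (pr ζ y 1 * x * pr ζ y 1) (pr ζ y 1 * x' * pr ζ y 1)
    (pr ζ y 1 * x * pr ζ y 2) (pr ζ y 1 * x' * pr ζ y 2) (pr ζ y 2 * x * pr ζ y 1)
    (pr ζ y 2 * x' * pr ζ y 1) (pr ζ y 2 * x * pr ζ y 2) (pr ζ y 2 * x' * pr ζ y 2)
    (pr ζ y 1 * x * pr ζ y 3) (pr ζ y 3 * x * pr ζ y 1)
    (pr ζ y 1 * x' * pr ζ y 3) (pr ζ y 3 * x' * pr ζ y 1)
    (pr ζ y 1 * x * pr ζ y 4) (pr ζ y 4 * x * pr ζ y 1)
    (H.pr_self 1) ?_ (H.A1 1 1 3 (by decide) (by decide) (by decide))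
    (H.A2 1 1 3 (by decide) (by decide) (by decide))
    (H.A1 1 3 1 (by decide) (by decide) (by decide))
    (H.A2 1 3 1 (by decide) (by decide) (by decide)) ?_ ?_
    (H.A1 1 2 2 (by decide) (by decide) (by decide))
    (H.A2 1 2 2 (by decide) (by decide) (by decide))
    (H.A1 2 1 2 (by decide) (by decide) (by decide))
    (H.A1 2 2 1 (by decide) (by decide) (by decide)) ?_ ?_
    (H.A5 1 1 3 2 1 (by decide) (by decide) (by decide) (by decide) (by decide))
    (H.A5 1 2 3 1 1 (by decide) (by decide) (by decide) (by decide) (by decide))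
  · calc pr ζ y 1 * (pr ζ y 1 * x' * pr ζ y 1) = pr ζ y 1 * pr ζ y 1 * x' * pr ζ y 1 := by
          simp only [mul_assoc]
      _ = _ := by rw [H.pr_self]
  · have h := H.A4 1 4 (by decide) (by decide)
    rw [e14, e41, neg_mul_neg] at h
    rw [two_mul, ← add_assoc]; exact h
  · have h := H.sum_split x x' 1 1
    rw [H.mul_inv, mul_one, H.pr_self, e41, mul_neg, ← sub_eq_add_neg] at h
    exact h
  · have h := H.sum_split x' x 1 2
    rw [H.inv_mul, mul_one, H.pr_ne (by decide), e14] at h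
    have h2 := H.A5 1 2 1 4 3 (by decide) (by decide) (by decide) (by decide) (by decide)
    rw [e32, mul_neg] at h2
    have h3 : pr ζ y 1 * x' * pr ζ y 3 * (pr ζ y 3 * x * pr ζ y 2)
        = pr ζ y 1 * x * pr ζ y 4 * (pr ζ y 4 * x * pr ζ y 2) := by
      rw [← sub_eq_add_neg] at h2
      exact (sub_eq_zero.1 h2).symm
    rw [h3, neg_mul, add_neg_cancel_right] at h
    exact eq_neg_of_add_eq_zero_left h
  · have h := H.sum_split x x' 2 1
    rw [H.mul_inv, mul_one, H.pr_ne (by decide), e41, mul_neg] at h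
    have h2 := H.A5 2 1 0 4 3 (by decide) (by decide) (by decide) (by decide) (by decide)
    rw [e23, neg_mul] at h2
    have h3 : pr ζ y 2 * x * pr ζ y 3 * (pr ζ y 3 * x' * pr ζ y 1)
        = pr ζ y 2 * x * pr ζ y 4 * (pr ζ y 4 * x * pr ζ y 1) := by
      rw [← sub_eq_add_neg] at h2
      exact (sub_eq_zero.1 h2).symm
    rw [h3, add_neg_cancel_right] at h
    exact eq_neg_of_add_eq_zero_left h

end Six

end Pool.Agent.FixFive
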